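import Pool.Agent.Lib.MP_6faade_an.Airplane

open Pool.Agent.Lib.MP_6faade_an

namespace Pool.Agent.Results.MP_6faade_an.ThreeInvariantIvy

/-- The airplane polynomial `z ^ 2 + c` (`c` the real root of `c ^ 3 + 2 c ^ 2 + c + 1`) is
post-critically finite and has three spanning trees for its post-critical set that are invariant
under the pullback relation and pairwise not isotopic relative to the post-critical set. -/
theorem result :
    ∃ c : ℝ, c ^ 3 + 2 * c ^ 2 + c + 1 = 0 ∧ (postcritical (c : ℂ)).Finite ∧
      ∃ T : Fin 3 → SphereTree, (∀ i, IsInvariantIvy (c : ℂ) (T i)) ∧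
        ∀ i j, i ≠ j → ¬ IsotopicRel (postcritical (c : ℂ)) (T i).carrier (T j).carrier :=
  three_invariant

end Pool.Agent.Results.MP_6faade_an.ThreeInvariantIvy
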